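import Mathlib
import Pool.Agent.T9h24.Fu.Spec

/-!
FU (R): regular sequences of hypersurface sections (modulo saturation) intersect properly.
-/

set_option autoImplicit false

open MvPolynomial Module

namespace Pool.Agent.T9h82.Fu

open Pool.Agent.T9h24 Pool.Agent.T9h24.Ft Pool.Agent.T9h24.Fu

section

variable {n q : ℕ}

/-- the ring of polynomials -/
abbrev Rg (n : ℕ) := MvPolynomial (Fin (n + 1)) (AlgebraicClosure ℚ)

theorem sat_of_pow {J : Ideal (Rg n)} {P : Rg n} {M : ℕ}
    (h : ∀ l, X l ^ M * P ∈ sat J) : P ∈ sat J := by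
  choose m hm using h
  refine ⟨(Finset.univ.sup m) + M, fun l => ?_⟩
  have h1 := hm l l
  have h2 : m l ≤ Finset.univ.sup m := Finset.le_sup (Finset.mem_univ l)
  obtain ⟨c, hc⟩ := Nat.exists_eq_add_of_le h2
  have h3 : (X l : Rg n) ^ (Finset.univ.sup m + M) * P = X l ^ c * (X l ^ m l * (X l ^ M * P)) := by
    rw [hc]; ring
  rw [h3]
  exact J.mul_mem_left _ h1

/-- the monomials in the `f k` -/
noncomputable def mono (f : Fin q → Rg n) (b : Fin q → ℕ) : Rg n := ∏ k, f k ^ b k

/-- the ideal of monomials -/
noncomputable def mi (f : Fin q → Rg n) (U : Finset (Fin q → ℕ)) : Ideal (Rg n) :=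
  Ideal.span (mono f '' (U : Set (Fin q → ℕ)))

theorem mono_mem (f : Fin q → Rg n) {U : Finset (Fin q → ℕ)} {b : Fin q → ℕ} (hb : b ∈ U) :
    mono f b ∈ mi f U := Ideal.subset_span ⟨b, hb, rfl⟩

theorem mono_update (f : Fin q → Rg n) (b : Fin q → ℕ) (k : Fin q) (hk : b k ≠ 0) :
    mono f b = f k * mono f (Function.update b k (b k - 1)) := by
  classical
  unfold mono
  rw [← Finset.mul_prod_erase Finset.univ (fun j => f j ^ b j) (Finset.mem_univ k),
    ← Finset.mul_prod_erase Finset.univ
      (fun j => f j ^ (Function.update b k (b k - 1)) j) (Finset.mem_univ k)]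
  have h1 : ∏ x ∈ Finset.univ.erase k, f x ^ (Function.update b k (b k - 1)) x =
      ∏ x ∈ Finset.univ.erase k, f x ^ b x := by
    refine Finset.prod_congr rfl fun x hx => ?_
    rw [Function.update_of_ne (Finset.ne_of_mem_erase hx)]
  rw [h1, Function.update_self, ← mul_assoc, ← pow_succ']
  congr 2
  omega

/-- the weight -/
def wt (U : Finset (Fin q → ℕ)) : ℕ := ∑ b ∈ U, ∑ k, b k

theorem mono_single (f : Fin q → Rg n) (k : Fin q) : mono f (Pi.single k 1) = f k := by
  classical
  unfold mono
  rw [Finset.prod_eq_single k]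
  · simp
  · intro j _ hj
    rw [Pi.single_eq_of_ne hj, pow_zero]
  · intro h
    exact absurd (Finset.mem_univ k) h

theorem mono_zero (f : Fin q → Rg n) : mono f 0 = 1 := by
  unfold mono
  simp

variable (I : Ideal (Rg n)) (f : Fin q → Rg n) (A : Finset (Fin q))

theorem nzd_mono
    (H : ∀ i ∈ A, ∀ B : Finset (Fin q), B ⊆ A → i ∉ B → ∀ P,
      f i * P ∈ sat (Ideal.span (f '' (B : Set (Fin q))) ⊔ I) →
        P ∈ sat (Ideal.span (f '' (B : Set (Fin q))) ⊔ I)) :
    ∀ (w : ℕ) (U : Finset (Fin q → ℕ)), wt U < w → (∀ b ∈ U, ∀ k, b k ≠ 0 → k ∈ A) →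
      ∀ i ∈ A, (∀ b ∈ U, b i = 0) → ∀ P, f i * P ∈ sat (mi f U ⊔ I) → P ∈ sat (mi f U ⊔ I) := by
  classical
  intro w
  induction w with
  | zero => intro U h; exact absurd h (Nat.not_lt_zero _)
  | succ w ih =>
    intro U hU hA i hi hb P hP
    by_cases hc : ∃ b ∈ U, 2 ≤ ∑ k, b k
    · obtain ⟨b₀, hb₀, hb2⟩ := hc
      obtain ⟨k, hk⟩ : ∃ k, b₀ k ≠ 0 := by
        by_contra hcon
        push Not at hcon
        have : ∑ k, b₀ k = 0 := Finset.sum_eq_zero fun k _ => hcon k
        omega
      have hkA : k ∈ A := hA b₀ hb₀ k hk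
      have hik : i ≠ k := by
        rintro rfl
        exact hk (hb b₀ hb₀)
      set U0 := U.filter fun b => b k = 0 with hU0
      set U1 := U.filter fun b => ¬ b k = 0 with hU1
      set U1' := U1.image (fun b => Function.update b k (b k - 1)) with hU1'
      have hw : wt U = wt U0 + wt U1 := by
        unfold wt
        rw [hU0, hU1, Finset.sum_filter_add_sum_filter_not]
      have hw1 : 2 ≤ wt U1 := by
        have h1 : b₀ ∈ U1 := Finset.mem_filter.2 ⟨hb₀, hk⟩
        exact hb2.trans (Finset.single_le_sum (f := fun b : Fin q → ℕ => ∑ k, b k)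
          (fun _ _ => Nat.zero_le _) h1)
      have hwU1' : wt U1' + 1 ≤ wt U1 := by
        have h1 : b₀ ∈ U1 := Finset.mem_filter.2 ⟨hb₀, hk⟩
        have h2 : wt U1' ≤ ∑ b ∈ U1, ∑ j, (Function.update b k (b k - 1)) j := by
          unfold wt
          rw [hU1']
          exact Finset.sum_image_le_of_nonneg (fun _ _ => Nat.zero_le _)
        have h3 : ∀ b ∈ U1, (∑ j, (Function.update b k (b k - 1)) j) + 1 = ∑ j, b j := by
          intro b hb'
          have hbk : ¬ b k = 0 := (Finset.mem_filter.1 hb').2
          rw [← Finset.add_sum_erase Finset.univ b (Finset.mem_univ k),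
            ← Finset.add_sum_erase Finset.univ (Function.update b k (b k - 1))
              (Finset.mem_univ k), Function.update_self]
          have h4 : ∑ x ∈ Finset.univ.erase k, (Function.update b k (b k - 1)) x =
              ∑ x ∈ Finset.univ.erase k, b x := by
            refine Finset.sum_congr rfl fun x hx => ?_
            rw [Function.update_of_ne (Finset.ne_of_mem_erase hx)]
          rw [h4]
          omega
        have h5 : ∑ b ∈ U1, ∑ j, (Function.update b k (b k - 1)) j + 1 ≤ wt U1 := by
          unfold wt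
          rw [← Finset.add_sum_erase U1 _ h1, ← Finset.add_sum_erase U1 (fun b => ∑ j, b j) h1]
          have h6 : ∑ x ∈ U1.erase b₀, ∑ j, (Function.update x k (x k - 1)) j ≤
              ∑ x ∈ U1.erase b₀, ∑ j, x j := by
            refine Finset.sum_le_sum fun x hx => ?_
            have := h3 x (Finset.mem_of_mem_erase hx)
            omega
          have h7 := h3 b₀ h1
          omega
        omega
      have hsub0 : U0 ⊆ U := Finset.filter_subset _ _
      have hA0 : ∀ b ∈ U0, ∀ k, b k ≠ 0 → k ∈ A := fun b hb' => hA b (hsub0 hb')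
      -- the three ideals
      have hle : mi f U0 ≤ mi f U := Ideal.span_mono (Set.image_mono (by exact_mod_cast hsub0))
      set U' := U0 ∪ U1' with hU'
      set U'' := insert (Pi.single k 1) U0 with hU''
      have hle' : mi f U0 ≤ mi f U' :=
        Ideal.span_mono (Set.image_mono (by
          rw [hU']; exact_mod_cast Finset.subset_union_left))
      have hA' : ∀ b ∈ U', ∀ j, b j ≠ 0 → j ∈ A := by
        intro b hb' j hj
        rcases Finset.mem_union.1 hb' with h | h
        · exact hA0 b h j hj
        · obtain ⟨b', hb1, rfl⟩ := Finset.mem_image.1 h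
          have hb'U : b' ∈ U := (Finset.mem_filter.1 hb1).1
          by_cases hjk : j = k
          · exact hjk ▸ hkA
          · rw [Function.update_of_ne hjk] at hj
            exact hA b' hb'U j hj
      have hi' : ∀ b ∈ U', b i = 0 := by
        intro b hb'
        rcases Finset.mem_union.1 hb' with h | h
        · exact hb b (hsub0 h)
        · obtain ⟨b', hb1, rfl⟩ := Finset.mem_image.1 h
          rw [Function.update_of_ne hik]
          exact hb b' (Finset.mem_filter.1 hb1).1
      have hA'' : ∀ b ∈ U'', ∀ j, b j ≠ 0 → j ∈ A := by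
        intro b hb' j hj
        rcases Finset.mem_insert.1 hb' with h | h
        · subst h
          by_cases hjk : j = k
          · exact hjk ▸ hkA
          · exact absurd (Pi.single_eq_of_ne hjk 1) hj
        · exact hA0 b h j hj
      have hi'' : ∀ b ∈ U'', b i = 0 := by
        intro b hb'
        rcases Finset.mem_insert.1 hb' with h | h
        · subst h
          exact Pi.single_eq_of_ne hik 1
        · exact hb b (hsub0 h)
      have hwt' : wt U' < w := by
        have h1 : wt U' ≤ wt U0 + wt U1' := by
          unfold wt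
          rw [hU', ← Finset.sum_union_inter]
          exact Nat.le_add_right _ _
        omega
      have hwt'' : wt U'' < w := by
        have h1 : wt U'' ≤ 1 + wt U0 := by
          unfold wt
          by_cases h : (Pi.single k 1 : Fin q → ℕ) ∈ U0
          · rw [hU'', Finset.insert_eq_of_mem h]
            exact Nat.le_add_left _ _
          · rw [hU'', Finset.sum_insert h]
            have h2 : ∑ j, (Pi.single k 1 : Fin q → ℕ) j = 1 := by
              rw [Finset.sum_pi_single']
              simp
            rw [h2]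
        omega
      -- (b)
      have hB : ∀ Q, Q ∈ mi f U' ⊔ I → f k * Q ∈ mi f U ⊔ I := by
        intro Q hQ
        obtain ⟨s, hs, t, ht, rfl⟩ := Submodule.mem_sup.1 hQ
        rw [mul_add]
        refine Ideal.add_mem _ (Ideal.mem_sup_left ?_) (Ideal.mem_sup_right (I.mul_mem_left _ ht))
        unfold mi at hs
        refine Submodule.span_induction (p := fun x _ => f k * x ∈ mi f U) ?_ ?_ ?_ ?_ hs
        · rintro x ⟨b, hb', rfl⟩
          rcases Finset.mem_union.1 (Finset.mem_coe.1 hb') with h | h
          · exact Ideal.mul_mem_left _ _ (mono_mem f (hsub0 h))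
          · obtain ⟨b', hb'', rfl⟩ := Finset.mem_image.1 h
            have h8 := Finset.mem_filter.1 hb''
            rw [← mono_update f b' k h8.2]
            exact mono_mem f h8.1
        · rw [mul_zero]; exact Ideal.zero_mem _
        · intro x y _ _ hx hy
          rw [mul_add]; exact Ideal.add_mem _ hx hy
        · intro a x _ hx
          rw [smul_eq_mul, mul_left_comm]
          exact Ideal.mul_mem_left _ _ hx
      have hBs : ∀ Q, Q ∈ sat (mi f U' ⊔ I) → f k * Q ∈ sat (mi f U ⊔ I) := by
        rintro Q ⟨M, hM⟩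
        refine ⟨M, fun l => ?_⟩
        rw [mul_left_comm]
        exact hB _ (hM l)
      -- decomposition
      have hD : ∀ Q, Q ∈ mi f U → ∃ s ∈ mi f U0, ∃ t ∈ mi f U1', Q = s + f k * t := by
        intro Q hQ
        unfold mi at hQ
        refine Submodule.span_induction
          (p := fun x _ => ∃ s ∈ mi f U0, ∃ t ∈ mi f U1', x = s + f k * t) ?_ ?_ ?_ ?_ hQ
        · rintro x ⟨b, hb', rfl⟩
          by_cases h : b k = 0
          · exact ⟨mono f b, mono_mem f (Finset.mem_filter.2 ⟨Finset.mem_coe.1 hb', h⟩), 0,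
              Ideal.zero_mem _, by rw [mul_zero, add_zero]⟩
          · refine ⟨0, Ideal.zero_mem _, mono f (Function.update b k (b k - 1)), mono_mem f
              (Finset.mem_image.2 ⟨b, Finset.mem_filter.2 ⟨Finset.mem_coe.1 hb', h⟩, rfl⟩), ?_⟩
            rw [zero_add, ← mono_update f b k h]
        · exact ⟨0, Ideal.zero_mem _, 0, Ideal.zero_mem _, by ring⟩
        · rintro x y _ _ ⟨s, hs, t, ht, rfl⟩ ⟨s', hs', t', ht', rfl⟩
          exact ⟨s + s', Ideal.add_mem _ hs hs', t + t', Ideal.add_mem _ ht ht', by ring⟩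
        · rintro a x _ ⟨s, hs, t, ht, rfl⟩
          exact ⟨a * s, Ideal.mul_mem_left _ _ hs, a * t, Ideal.mul_mem_left _ _ ht, by
            rw [smul_eq_mul]; ring⟩
      -- (a)
      have hCc : ∀ Q, f k * Q ∈ sat (mi f U ⊔ I) → Q ∈ sat (mi f U' ⊔ I) := by
        rintro Q ⟨M, hM⟩
        refine sat_of_pow (M := M) fun l => ?_
        obtain ⟨s, hs, r, hr, hsr⟩ := Submodule.mem_sup.1 (hM l)
        obtain ⟨s', hs', t, ht, rfl⟩ := hD s hs
        have h1 : f k * (X l ^ M * Q - t) ∈ sat (mi f U0 ⊔ I) := by
          apply le_sat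
          have h2 : f k * (X l ^ M * Q - t) = s' + r := by
            have h3 : X l ^ M * (f k * Q) = f k * (X l ^ M * Q) := by ring
            rw [mul_sub, ← h3, ← hsr]
            ring
          rw [h2]
          exact Ideal.add_mem _ (Ideal.mem_sup_left hs') (Ideal.mem_sup_right hr)
        have h4 := ih U0 (by omega) hA0 k hkA (fun b hb' => (Finset.mem_filter.1 hb').2) _ h1
        have h5 : X l ^ M * Q = (X l ^ M * Q - t) + t := by ring
        rw [h5]
        refine Ideal.add_mem _ (sat_mono (sup_le_sup_right hle' I) h4) (le_sat _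
          (Ideal.mem_sup_left ?_))
        exact Ideal.span_mono (Set.image_mono (by
          rw [hU']; exact_mod_cast Finset.subset_union_right)) ht
      -- (c)
      have hUU : mi f U ≤ mi f U'' := by
        unfold mi
        rw [Ideal.span_le]
        rintro x ⟨b, hb', rfl⟩
        by_cases h : b k = 0
        · exact mono_mem f (Finset.mem_insert_of_mem
            (Finset.mem_filter.2 ⟨Finset.mem_coe.1 hb', h⟩))
        · have h1 := mono_mem f (U := U'') (b := Pi.single k 1) (Finset.mem_insert_self _ _)
          rw [mono_single] at h1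
          rw [mono_update f b k h]
          exact Ideal.mul_mem_right _ _ h1
      have hP2 : P ∈ sat (mi f U'' ⊔ I) :=
        ih U'' hwt'' hA'' i hi hi'' P (sat_mono (sup_le_sup_right hUU I) hP)
      obtain ⟨M, hM⟩ := hP2
      refine sat_of_pow (M := M) fun l => ?_
      have hdec : ∀ x, x ∈ mi f U'' → ∃ s ∈ mi f U0, ∃ t, x = s + f k * t := by
        intro x hx
        unfold mi at hx
        refine Submodule.span_induction
          (p := fun x _ => ∃ s ∈ mi f U0, ∃ t, x = s + f k * t) ?_ ?_ ?_ ?_ hx
        · rintro x ⟨b, hb', rfl⟩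
          rcases Finset.mem_insert.1 (Finset.mem_coe.1 hb') with h | h
          · subst h
            exact ⟨0, Ideal.zero_mem _, 1, by rw [mono_single]; ring⟩
          · exact ⟨mono f b, mono_mem f h, 0, by ring⟩
        · exact ⟨0, Ideal.zero_mem _, 0, by ring⟩
        · rintro x y _ _ ⟨s, hs, t, rfl⟩ ⟨s', hs', t', rfl⟩
          exact ⟨s + s', Ideal.add_mem _ hs hs', t + t', by ring⟩
        · rintro a x _ ⟨s, hs, t, rfl⟩
          exact ⟨a * s, Ideal.mul_mem_left _ _ hs, a * t, by rw [smul_eq_mul]; ring⟩
      obtain ⟨s, hs, r, hr, hsr⟩ := Submodule.mem_sup.1 (hM l)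
      obtain ⟨s', hs', t, rfl⟩ := hdec s hs
      have h1 : f k * (f i * t) ∈ sat (mi f U ⊔ I) := by
        have h2 : f k * (f i * t) = X l ^ M * (f i * P) - f i * (s' + r) := by
          have h3 : X l ^ M * (f i * P) = f i * (X l ^ M * P) := by ring
          rw [h3, ← hsr]
          ring
        rw [h2]
        refine Ideal.sub_mem _ (Ideal.mul_mem_left _ _ hP) (Ideal.mul_mem_left _ _ (le_sat _ ?_))
        exact Ideal.add_mem _ (Ideal.mem_sup_left (hle hs')) (Ideal.mem_sup_right hr)
      have h2 := hCc _ h1
      have h3 := hBs _ (ih U' hwt' hA' i hi hi' t h2)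
      rw [← hsr]
      have h4 : s' + f k * t + r = (s' + r) + f k * t := by ring
      rw [h4]
      exact Ideal.add_mem _ (le_sat _
        (Ideal.add_mem _ (Ideal.mem_sup_left (hle hs')) (Ideal.mem_sup_right hr))) h3
    · push Not at hc
      by_cases h0 : (0 : Fin q → ℕ) ∈ U
      · have h1 := mono_mem f h0
        rw [mono_zero] at h1
        have h2 : mi f U = ⊤ := (Ideal.eq_top_iff_one _).2 h1
        apply le_sat
        rw [h2, top_sup_eq]
        exact Submodule.mem_top
      · set B : Finset (Fin q) := Finset.univ.filter fun k => (Pi.single k 1 : Fin q → ℕ) ∈ U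
          with hB
        have hform : ∀ b ∈ U, ∃ k, b = Pi.single k 1 := by
          intro b hb'
          obtain ⟨k, hk⟩ : ∃ k, b k ≠ 0 := by
            by_contra hcon
            push Not at hcon
            exact h0 (by have : b = 0 := funext hcon; rwa [← this])
          refine ⟨k, ?_⟩
          have h1 := hc b hb'
          rw [← Finset.add_sum_erase Finset.univ b (Finset.mem_univ k)] at h1
          have h2 : ∑ x ∈ Finset.univ.erase k, b x = 0 := by omega
          funext j
          by_cases hj : j = k
          · subst hj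
            rw [Pi.single_eq_same]
            omega
          · rw [Pi.single_eq_of_ne hj]
            exact (Finset.sum_eq_zero_iff.1 h2) j (Finset.mem_erase.2 ⟨hj, Finset.mem_univ j⟩)
        have hspan : mi f U = Ideal.span (f '' (B : Set (Fin q))) := by
          apply le_antisymm
          · unfold mi
            rw [Ideal.span_le]
            rintro x ⟨b, hb', rfl⟩
            obtain ⟨k, rfl⟩ := hform b (Finset.mem_coe.1 hb')
            rw [mono_single]
            refine Ideal.subset_span ⟨k, ?_, rfl⟩
            rw [hB]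
            simpa using hb'
          · rw [Ideal.span_le]
            rintro x ⟨k, hk, rfl⟩
            have h1 : (Pi.single k 1 : Fin q → ℕ) ∈ U := by
              rw [hB] at hk
              simpa using hk
            have h2 := mono_mem f h1
            rwa [mono_single] at h2
        rw [hspan] at hP ⊢
        refine H i hi B ?_ ?_ P hP
        · intro k hk
          have h1 : (Pi.single k 1 : Fin q → ℕ) ∈ U := (Finset.mem_filter.1 hk).2
          exact hA _ h1 k (by rw [Pi.single_eq_same]; exact one_ne_zero)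
        · intro h
          have h1 : (Pi.single i 1 : Fin q → ℕ) ∈ U := (Finset.mem_filter.1 h).2
          have h2 := hb _ h1
          rw [Pi.single_eq_same] at h2
          exact one_ne_zero h2

end

theorem stReg : StReg := by
  classical
  intro n q I f A H i hi U e hU P hP1 hP2
  have hr : ∀ k : Fin q, Set.range (fun _ : Fin 1 => f k) = {f k} := fun k => Set.range_const
  have hmi : (⨆ b ∈ U, ∏ k, (Ideal.span (Set.range (fun _ : Fin 1 => f k))) ^ b k) = mi f U := by
    have h1 : ∀ b : Fin q → ℕ, ∏ k, (Ideal.span (Set.range (fun _ : Fin 1 => f k))) ^ b k =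
        Ideal.span {mono f b} := by
      intro b
      unfold mono
      simp only [hr, Ideal.span_singleton_pow, Ideal.prod_span_singleton]
    simp only [h1]
    apply le_antisymm
    · refine iSup₂_le fun b hb => ?_
      rw [Ideal.span_singleton_le_iff_mem]
      exact mono_mem f hb
    · unfold mi
      rw [Ideal.span_le]
      rintro x ⟨b, hb, rfl⟩
      exact (le_iSup₂_of_le (f := fun (b : Fin q → ℕ) (_ : b ∈ U) => Ideal.span {mono f b}) b
        (Finset.mem_coe.1 hb) le_rfl) (Ideal.mem_span_singleton_self _)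
  beta_reduce at hP1 hP2 ⊢
  rw [hmi] at hP1 ⊢
  rw [hr, Ideal.span_singleton_pow] at hP2 ⊢
  have hN := nzd_mono I f A H (wt U + 1) U (Nat.lt_succ_self _)
    (fun b hb k hk => (hU b hb k hk).1) i hi (fun b hb => by
      by_contra h
      exact (hU b hb i h).2 rfl)
  have hNp : ∀ (m : ℕ) (Q), f i ^ m * Q ∈ sat (mi f U ⊔ I) → Q ∈ sat (mi f U ⊔ I) := by
    intro m
    induction m with
    | zero => intro Q hQ; rwa [pow_zero, one_mul] at hQ
    | succ m ih =>
      intro Q hQ
      rw [pow_succ', mul_assoc] at hQ
      exact ih Q (hN _ hQ)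
  obtain ⟨M, hM⟩ := hP2
  refine sat_of_pow (M := M) fun l => ?_
  obtain ⟨s, hs, r, hr', hsr⟩ := Submodule.mem_sup.1 (hM l)
  obtain ⟨Q, rfl⟩ := Ideal.mem_span_singleton'.1 hs
  have h1 : f i ^ e * Q ∈ sat (mi f U ⊔ I) := by
    have h2 : f i ^ e * Q = X l ^ M * P - r := by
      rw [← hsr]; ring
    rw [h2]
    exact Ideal.sub_mem _ (Ideal.mul_mem_left _ _ hP1) (le_sat _ (Ideal.mem_sup_right hr'))
  obtain ⟨M', hM'⟩ := hNp e Q h1
  rw [← hsr]
  refine Ideal.add_mem _ ⟨M', fun l' => ?_⟩ (le_sat _ (Ideal.mem_sup_right hr'))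
  obtain ⟨a, ha, c, hc, hac⟩ := Submodule.mem_sup.1 (hM' l')
  have h3 : X l' ^ M' * (Q * f i ^ e) = a * f i ^ e + c * f i ^ e := by
    have h4 : X l' ^ M' * (Q * f i ^ e) = (X l' ^ M' * Q) * f i ^ e := by ring
    rw [h4, ← hac]
    ring
  rw [h3]
  exact Ideal.add_mem _ (Ideal.mem_sup_left (Ideal.mul_mem_mul ha (Ideal.mem_span_singleton_self _)))
    (Ideal.mem_sup_right (Ideal.mul_mem_right _ _ hc))

end Pool.Agent.T9h82.Fu
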